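import Pool.Agent.R551.YD.Main

/-!
# Young domination with latency `L`: approximation with an exponent that does not depend on `L`

The definitions used in the statement:

* `Pool/Agent/R551/YD/Defs.lean`: `step Z` is the map `𝒯(Z)` on vertex sets of the Hamming rectangle,
  and `gam L Z m n` is `γ^L(Z, m, n)`;
* `Pool/Agent/R551/YD/Main.lean`: `inp L Z a b` is the input: `L` in unary, the list of the `a`
  column heights of `Z`, and `b` in unary;
* `Pool/Agent/R551/YD/Algo.lean`: `val l m n` is the least of the numbers `m p + n q + m n r + K`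
  for the entries `(p, q, r, K)` of the list `l`;
* `Pool/Agent/NPC/Defs.lean`: `bits` codes data by bit strings, `PolyTime` is polynomial time.
  `Turing.TM2ComputableInPolyTime` is from Mathlib; its field `time` is the polynomial that bounds the
  number of steps of the machine in terms of the length of the input.

Idea of the proof. Let `R_s(k, X)` be the least size of a set for which at time `s` at least `k` rows
have at least `X` members, and `C_s(l, Y)` the same for columns. Let `v(x)` be the least `y` with
`(x, y)` outside `Z`. A union of two sets shows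
`R_{s+1}(k, X) ≤ min (R_s(k, X), min_x (R_s(k, x) + C_s(X, v(x))))`. Conversely, let `k` rows have `X`
members at time `s + 1`. Either half of these rows had `X / 2` members at time `s`, or in half of them
at least `X / 2` members are new; let `x` be the least number of members at time `s` in one of the
latter rows. Then at time `s` half of the rows had `x` members and `X / 2` columns had `v(x)`
members. As both sides at most double when an argument doubles, the recursion computes `R_s` up to a
factor `4 ^ s`. Only `X ≤ a` and `Y ≤ b` matter in it, and `m` and `n` enter only linearly.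
-/

set_option autoImplicit false

namespace Pool.Agent.Results.MP_a6d740_lc.LatencyFreeExponent

open Pool.Agent.R551.YD
open Pool.Agent.NPC (bits PolyTime)

/-- There are one algorithm (a Turing machine `M`, which gets `L` as a part of its input) and one
exponent `k` with the following properties. For every `L` there is a constant `K` such that for every
zero-set `Z` inside `R_{a,b}` with `a, b ≥ 1` the machine makes at most `K (a b) ^ k` steps, and
outputs a table of at most `(a + 1) (b + 1)` quadruples such that for all `n ≥ a` and `m ≥ b` the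
least of the numbers `m p + n q + m n r + K'` for its entries `(p, q, r, K')` lies between
`γ^L(Z, m, n)` and `4 ^ L γ^L(Z, m, n)`. This number is computed from the same input together with
`m` and `n` (in binary) in polynomial time. -/
theorem result :
    ∃ (F : Inp → List (ℕ × ℕ × ℕ × ℕ)) (f : List Bool → List Bool)
      (M : Turing.TM2ComputableInPolyTime (id : List Bool → List Bool) id f) (k : ℕ),
      (∀ i, f (bits i) = bits (F i)) ∧
      (∃ g : List Bool → List Bool, PolyTime g ∧
        ∀ (i : Inp) (m n : ℕ), g (bits (i, m, n)) = bits (val (F i) m n)) ∧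
      ∀ L : ℕ, ∃ K : ℕ, ∀ (a b : ℕ) (Z : Set (ℕ × ℕ)), 1 ≤ a → 1 ≤ b → IsLowerSet Z →
        (∀ p ∈ Z, p.1 < a ∧ p.2 < b) →
        M.time.eval (bits (inp L Z a b)).length ≤ K * (a * b) ^ k ∧
        (F (inp L Z a b)).length ≤ (a + 1) * (b + 1) ∧
        ∀ m n : ℕ, a ≤ n → b ≤ m →
          gam L Z m n ≤ val (F (inp L Z a b)) m n ∧
          val (F (inp L Z a b)) m n ≤ 4 ^ L * gam L Z m n := by
  obtain ⟨f, ⟨M⟩, hf⟩ := realise poly_algo
  obtain ⟨g, hg, hg'⟩ := realise (F := fun p : Inp × ℕ × ℕ => val (algo p.1) p.2.1 p.2.2)
    (Pool.Agent.NPC.Poly.comp (g := fun p : List (ℕ × ℕ × ℕ × ℕ) × ℕ × ℕ => val p.1 p.2.1 p.2.2)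
      (f := fun p : Inp × ℕ × ℕ => (algo p.1, p.2)) poly_val
      (Pool.Agent.NPC.Poly.pair (poly_algo.comp (Pool.Agent.NPC.Poly.fst Pool.Agent.NPC.Poly.id))
        (Pool.Agent.NPC.Poly.snd Pool.Agent.NPC.Poly.id)))
  refine ⟨algo, f, M, M.time.natDegree, hf, ⟨g, hg, fun i m n => hg' (i, m, n)⟩, fun L => ?_⟩
  refine ⟨M.time.eval 1 * (2 * L + 13) ^ M.time.natDegree, fun a b Z ha hb hZ hab => ?_⟩
  have hP := prof_of hZ hab
  have hpr := profs_inp L Z a b
  refine ⟨?_, ?_, fun m n han hbm => ?_⟩
  · have h1 : 1 ≤ (bits (inp L Z a b)).length := by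
      rw [Pool.Agent.NPC.bits_length]
      exact Pool.Agent.NPC.sz_pos _
    refine (eval_le_pow _ h1).trans ?_
    rw [mul_assoc, ← mul_pow]
    exact Nat.mul_le_mul_left _ (Nat.pow_le_pow_left (sz_inp L Z a b ha hb) _)
  · refine algo_length _ ?_ ?_
    · rw [hpr]
      simp
    · rw [hpr]
      simp
  · have hval : val (algo (inp L Z a b)) m n = D (hv Z a b) (hh Z a b) a b L m n := by
      have h1 := val_algo (i := inp L Z a b) hP.v_le hP.h_le (hP.v_zero le_rfl) hpr (m := m) han
      rw [h1]
      simp [inp]
    rw [hval]
    exact ⟨gam_le hP L han hbm, le_gam hP L n m⟩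

end Pool.Agent.Results.MP_a6d740_lc.LatencyFreeExponent
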